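import Pool.Agent.H6.NB.Targets

/-!
# Modules CLR, PCG, COD, LVL
-/

set_option autoImplicit false

namespace Pool.Agent.H19.NB

open Pool.Agent.H6.NB

theorem t_clr : T_CLR := by
  intro V S d f ρ hf
  induction d generalizing f with
  | zero =>
    rcases hf with ⟨b, hb⟩ | ⟨v, hv⟩
    · exact Or.inl ⟨b, fun y => hb _⟩
    · cases hr : ρ v with
      | none =>
        refine Or.inr ⟨v, fun y => ?_⟩
        unfold rst
        rw [hv, hr, Option.getD_none]
      | some b =>
        refine Or.inl ⟨b, fun y => ?_⟩
        unfold rst
        rw [hv, hr, Option.getD_some]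
  | succ d ih =>
    obtain ⟨m, g, b, hm, hg, hf⟩ := hf
    exact ⟨m, fun i => rst ρ (g i), b, hm, fun i => ih (g i) (hg i), fun y => hf _⟩

theorem t_pcg : T_PCG := by
  intro Q O O' h
  have h1 : ∀ i, Q.phase O i = Q.phase O' i := by
    intro i
    unfold QAlg.phase
    cases hq : Q.query i with
    | none => rfl
    | some w => simp only [h i w hq]
  have h2 : ∀ t, Q.state O t = Q.state O' t := by
    intro t
    induction t with
    | zero => rfl
    | succ t ih =>
      rw [QAlg.state, QAlg.state, ih]
      congr 1
      funext i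
      rw [h1]
  unfold QAlg.prob
  simp only [h2]

lemma dbl_cons (b : Bool) (x : List Bool) : dbl (b :: x) = true :: b :: dbl x := rfl

lemma dbl_nil : dbl [] = [] := rfl

lemma dbl_length (x : List Bool) : (dbl x).length = 2 * x.length := by
  induction x with
  | nil => rfl
  | cons b x ih =>
    rw [dbl_cons, List.length_cons, List.length_cons, List.length_cons, ih]
    ring

lemma dbl_sep {x x' r r' : List Bool} (h : dbl x ++ false :: r = dbl x' ++ false :: r') :
    x = x' ∧ r = r' := by
  induction x generalizing x' with
  | nil =>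
    cases x' with
    | nil => simpa [dbl_nil] using h
    | cons b x' => simp [dbl_nil, dbl_cons] at h
  | cons a x ih =>
    cases x' with
    | nil => simp [dbl_nil, dbl_cons] at h
    | cons b x' =>
      simp only [dbl_cons, List.cons_append, List.cons.injEq, true_and] at h
      obtain ⟨h1, h2⟩ := h
      obtain ⟨h3, h4⟩ := ih h2
      exact ⟨by rw [h1, h3], h4⟩

theorem t_cod : T_COD := by
  constructor
  · intro x x' y y' i i' h
    obtain ⟨h1, h2⟩ := dbl_sep h
    obtain ⟨h3, h4⟩ := dbl_sep h2
    refine ⟨h1, h3, ?_⟩
    simpa using congrArg List.length h4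
  · intro x y i
    unfold code
    simp only [List.length_append, List.length_cons, dbl_length, List.length_replicate]
    ring

theorem t_lvl : T_LVL := by
  intro n a hn
  have hn1 : 1 < n := hn
  constructor
  · intro s s' h1 h2
    unfold lv
    have hs' : s'.length ≠ 0 := by
      intro h
      rw [h] at h1
      have : 0 < n ^ 2 := by positivity
      omega
    have hs : s.length ≠ 0 := by
      intro h
      rw [h] at h2
      have : 0 < s'.length ^ 2 := by positivity
      omega
    set L' := Nat.log n s'.length with hL'
    have e1 : 2 ≤ L' := (Nat.le_log_iff_pow_le hn1 hs').2 h1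
    have e2 : 2 * L' ≤ Nat.log n s.length := by
      refine (Nat.le_log_iff_pow_le hn1 hs).2 (le_trans ?_ h2)
      rw [mul_comm, pow_mul]
      exact Nat.pow_le_pow_left (Nat.pow_log_le_self n hs') 2
    have e3 : Nat.log 2 (2 * L') ≤ Nat.log 2 (Nat.log n s.length) := Nat.log_mono_right e2
    have e4 : Nat.log 2 (2 * L') = Nat.log 2 L' + 1 := by
      rw [mul_comm]
      exact Nat.log_mul_base (by norm_num) (by omega)
    omega
  · rintro ⟨s, h1, h2⟩
    unfold lv
    have hs : s.length ≠ 0 := by
      intro h
      rw [h] at h1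
      have : 0 < n ^ 2 := by positivity
      omega
    have e1 : 2 ≤ Nat.log n s.length := (Nat.le_log_iff_pow_le hn1 hs).2 h1
    have e2 : Nat.log n s.length < 2 ^ a := Nat.log_lt_of_lt_pow hs h2
    exact Nat.log_lt_of_lt_pow (Nat.ne_of_gt (lt_of_lt_of_le (by norm_num) e1)) e2

end Pool.Agent.H19.NB
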